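import Mathlib
import Pool.Agent.Y268.GD.S4
import Pool.Agent.Y268.GD.V3

set_option autoImplicit false

/-!
The value one is impossible for the global dimension and for the bidimension of a Banach algebra
which contains an infinite-dimensional C*-algebra that survives in a Hilbert space representation,
in particular for every operator algebra, self-adjoint or not, whose diagonal is
infinite-dimensional.
-/

namespace Pool.Agent.Results.MP_a77edb_an.OperatorAlgebras

open Pool.Agent.Helper133.CD Pool.Agent.Y268.GD

universe u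

/-- Bounded homomorphisms. -/
def IsHom {A B : Type u} [NonUnitalNormedRing A] [NormedSpace ℂ A] [NonUnitalNormedRing B]
    [NormedSpace ℂ B] (f : A → B) : Prop :=
  IsBoundedLinearMap ℂ f ∧ ∀ x y, f (x * y) = f x * f y

/-- A bounded representation of `A` on a Hilbert space. -/
structure Rep (A : Type u) [NonUnitalNormedRing A] [NormedSpace ℂ A] where
  K : Type u
  [n : NormedAddCommGroup K]
  [i : InnerProductSpace ℂ K]
  [c : CompleteSpace K]
  π : A → K → K
  bounded : IsBoundedBilinearMap ℂ fun p : A × K => π p.1 p.2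
  mul : ∀ a b x, π (a * b) x = π a (π b x)

attribute [instance] Rep.n

/-- There are an infinite-dimensional C*-algebra `C`, a bounded homomorphism `i : C → A` and a
bounded representation `R` of `A` on a Hilbert space which is injective on `C`. -/
def Represented (A : Type u) [NonUnitalNormedRing A] [NormedSpace ℂ A] : Prop :=
  ∃ (C : Type u) (_ : NonUnitalCStarAlgebra C) (i : C → A) (R : Rep A),
    ¬ FiniteDimensional ℂ C ∧ IsHom i ∧ ∀ x, (∀ k, R.π (i x) k = 0) → x = 0

/-- There are an infinite-dimensional C*-algebra `C`, a C*-algebra `B` and bounded homomorphisms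
`C → A → B` whose composition is an injective *-homomorphism. -/
def Between (A : Type u) [NonUnitalNormedRing A] [NormedSpace ℂ A] : Prop :=
  ∃ (C B : Type u) (_ : NonUnitalCStarAlgebra C) (_ : NonUnitalCStarAlgebra B) (i : C → A)
    (φ : A → B), ¬ FiniteDimensional ℂ C ∧ IsHom i ∧ IsHom φ ∧
    (∀ x, φ (i (star x)) = star (φ (i x))) ∧ ∀ x, φ (i x) = 0 → x = 0

/-- The diagonal `S ∩ S*` of a subalgebra of a C*-algebra. -/
def diagonal {B : Type u} [NonUnitalCStarAlgebra B] (S : NonUnitalSubalgebra ℂ B) :
    NonUnitalStarSubalgebra ℂ B where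
  carrier := {x | x ∈ S ∧ star x ∈ S}
  add_mem' := fun hx hy => ⟨S.add_mem hx.1 hy.1, by rw [star_add]; exact S.add_mem hx.2 hy.2⟩
  zero_mem' := ⟨S.zero_mem, by rw [star_zero]; exact S.zero_mem⟩
  mul_mem' := fun hx hy => ⟨S.mul_mem hx.1 hy.1, by rw [star_mul]; exact S.mul_mem hy.2 hx.2⟩
  smul_mem' := fun c x hx => ⟨S.smul_mem c hx.1, by rw [star_smul]; exact S.smul_mem _ hx.2⟩
  star_mem' := fun hx => ⟨hx.2, by rw [star_star]; exact hx.1⟩

/-- The norm of `B` restricted to a subalgebra. -/
noncomputable instance subalgebraNormedSpace {B : Type u} [NonUnitalCStarAlgebra B]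
    (S : NonUnitalSubalgebra ℂ B) : NormedSpace ℂ S where
  norm_smul_le c x := norm_smul_le c (x : B)

/-- (1) `dg A > 1` and `db A > 1` for every Banach algebra `A` which contains an
infinite-dimensional C*-algebra that survives in a Hilbert space representation of `A`, or which
lies between C*-algebras.
(2) This holds for every complete subalgebra `A` of a C*-algebra, self-adjoint or not, whose
diagonal is infinite-dimensional.
(3) Class (iii): this holds for every infinite-dimensional C*-algebra `A`. -/
theorem result :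
    (∀ (A : Type u) [NonUnitalNormedRing A] [NormedSpace ℂ A] [IsScalarTower ℂ A A]
      [SMulCommClass ℂ A A] [CompleteSpace A],
      Represented A ∨ Between A → 1 < dg A ∧ 1 < db A) ∧
    (∀ (B : Type u) [NonUnitalCStarAlgebra B] (S : NonUnitalSubalgebra ℂ B) [CompleteSpace S],
      ¬ FiniteDimensional ℂ (diagonal S) → 1 < dg S ∧ 1 < db S) ∧
    (∀ (A : Type u) [NonUnitalCStarAlgebra A], ¬ FiniteDimensional ℂ A → 1 < dg A ∧ 1 < db A) := by
  have key : ∀ (A : Type u) [NonUnitalNormedRing A] [NormedSpace ℂ A] [IsScalarTower ℂ A A]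
      [SMulCommClass ℂ A A] [CompleteSpace A] (C B : Type u) [NonUnitalCStarAlgebra C]
      [NonUnitalCStarAlgebra B] (i : C →L[ℂ] A) (φ : A →L[ℂ] B), ¬ FiniteDimensional ℂ C →
      (∀ x y, i (x * y) = i x * i y) → (∀ x y, φ (x * y) = φ x * φ y) →
      (∀ x, φ (i (star x)) = star (φ (i x))) → (∀ x, φ (i x) = 0 → x = 0) →
      1 < dg A ∧ 1 < db A := by
    intro A _ _ _ _ _ C B _ _ i φ hC hi hφ hst hinj
    exact dims_sandwich hC i φ hi hφ hst hinj
  refine ⟨?_, fun B _ S _ hD => ?_, fun A _ hA => key A A A
    (ContinuousLinearMap.id ℂ A) (ContinuousLinearMap.id ℂ A) hA (fun _ _ => rfl) (fun _ _ => rfl)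
    (fun _ => rfl) (fun _ h => h)⟩
  · rintro A _ _ _ _ _ (⟨C, _, i, R, hC, hi, hinj⟩ | ⟨C, B, _, _, i, φ, hC, hi, hφ, hst, hinj⟩)
    · obtain ⟨K, π, hb, hm⟩ := R
      refine dims_represented hC K hi.1.toContinuousLinearMap hb.toContinuousLinearMap
        (fun x y => hi.2 x y) (fun a b => ContinuousLinearMap.ext fun x => hm a b x)
        (fun x h => hinj x fun k => ?_)
      exact congrArg (fun f : K →L[ℂ] K => f k) h
    · exact key A C B hi.1.toContinuousLinearMap hφ.1.toContinuousLinearMap hC
        (fun x y => hi.2 x y) (fun x y => hφ.2 x y) hst hinj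
  have hS : IsClosed (S : Set B) := (completeSpace_coe_iff_isComplete.1 inferInstance).isClosed
  have hcl : IsClosed ((diagonal S : NonUnitalStarSubalgebra ℂ B) : Set B) := by
    have h1 : ((diagonal S : NonUnitalStarSubalgebra ℂ B) : Set B) =
        (S : Set B) ∩ (star : B → B) ⁻¹' (S : Set B) := rfl
    rw [h1]
    exact hS.inter (hS.preimage continuous_star)
  let i : diagonal S →L[ℂ] S := LinearMap.mkContinuous
    { toFun := fun x => (⟨(x : B), (show (x : B) ∈ S ∧ star (x : B) ∈ S from x.2).1⟩ : S)
      map_add' := fun _ _ => rfl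
      map_smul' := fun _ _ => rfl } 1 (fun x => by rw [one_mul]; exact le_of_eq rfl)
  let φ : S →L[ℂ] B := LinearMap.mkContinuous
    { toFun := fun x => (x : B)
      map_add' := fun _ _ => rfl
      map_smul' := fun _ _ => rfl } 1 (fun x => by rw [one_mul]; exact le_of_eq rfl)
  exact key S (diagonal S) B i φ hD (fun _ _ => rfl) (fun _ _ => rfl) (fun _ => rfl)
    fun x h => Subtype.ext h

end Pool.Agent.Results.MP_a77edb_an.OperatorAlgebras
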